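import Pool.Agent.N426.TF4.Structure

/-!
A triangle-free 4-critical graph on `n` vertices has at most `0.2499 n ^ 2` edges.
-/

set_option autoImplicit false

namespace Pool.Agent.N426.TF4

open SimpleGraph Finset

variable {n : ℕ} (G : SimpleGraph (Fin n)) [DecidableRel G.Adj]

/-- few vertices of `X` have many missing neighbours in `Y` -/
theorem bad_card (hn : 0 < n) (X Y : Finset (Fin n))
    (hM : 2000 * ((X ×ˢ Y).filter fun p => ¬ G.Adj p.1 p.2).card ≤ n ^ 2) :
    100 * (X.filter fun x => n < 20 * (Y.filter fun y => ¬ G.Adj x y).card).card ≤ n := by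
  classical
  set B := X.filter fun x => n < 20 * (Y.filter fun y => ¬ G.Adj x y).card with hB
  have h1 : ((X ×ˢ Y).filter fun p => ¬ G.Adj p.1 p.2).card =
      ∑ x ∈ X, (Y.filter fun y => ¬ G.Adj x y).card := by
    rw [card_filter, sum_product]
    refine sum_congr rfl fun x _ => ?_
    rw [card_filter]
  have h2 : B.card * n ≤ 20 * ∑ x ∈ X, (Y.filter fun y => ¬ G.Adj x y).card := by
    calc B.card * n = ∑ x ∈ B, n := by rw [sum_const, smul_eq_mul]
      _ ≤ ∑ x ∈ B, 20 * (Y.filter fun y => ¬ G.Adj x y).card := by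
        refine sum_le_sum fun x hx => ?_
        rw [hB, mem_filter] at hx
        exact hx.2.le
      _ = 20 * ∑ x ∈ B, (Y.filter fun y => ¬ G.Adj x y).card := by rw [mul_sum]
      _ ≤ 20 * ∑ x ∈ X, (Y.filter fun y => ¬ G.Adj x y).card := by
        refine Nat.mul_le_mul_left _ ?_
        exact sum_le_sum_of_subset (filter_subset _ _)
  rw [h1] at hM
  have h3 : n * (100 * B.card) ≤ n * n := by nlinarith
  exact Nat.le_of_mul_le_mul_left h3 hn

theorem prod_le (X Y A B : Finset (Fin n)) (hA : A ⊆ X) (hB : B ⊆ Y)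
    (h : ∀ a ∈ A, ∀ b ∈ B, ¬ G.Adj a b) :
    A.card * B.card ≤ ((X ×ˢ Y).filter fun p => ¬ G.Adj p.1 p.2).card := by
  classical
  rw [← card_product]
  apply card_le_card
  intro p hp
  rw [mem_product] at hp
  rw [mem_filter, mem_product]
  exact ⟨⟨hA hp.1, hB hp.2⟩, h _ hp.1 _ hp.2⟩

omit [DecidableRel G.Adj] in
/-- the colouring of `G` without the edge `x y` -/
theorem col_of_del {x y : Fin n} (hxy : G.Adj x y)
    (h3 : ¬ G.Colorable 3) (hcr : (G.deleteEdges {s(x, y)}).Colorable 3) :
    ∃ c : Fin n → Fin 3, c x = c y ∧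
      (∀ a b, G.Adj a b → ¬ (a = x ∧ b = y) → ¬ (a = y ∧ b = x) → c a ≠ c b) ∧
      ∀ α, α ≠ c x → ∃ w, G.Adj x w ∧ w ≠ y ∧ c w = α := by
  classical
  obtain ⟨C⟩ := hcr
  have hC : ∀ a b, G.Adj a b → ¬ (a = x ∧ b = y) → ¬ (a = y ∧ b = x) → C a ≠ C b := by
    intro a b hab h1 h2
    apply C.valid
    rw [deleteEdges_adj]
    refine ⟨hab, fun h => ?_⟩
    have h' : s(a, b) = s(x, y) := h
    rw [Sym2.eq_iff] at h'
    rcases h' with h' | h'
    · exact h1 h'
    · exact h2 h'
  have hcxy : C x = C y := by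
    by_contra hne
    apply h3
    refine ⟨Coloring.mk (fun v => C v) ?_⟩
    intro a b hab
    by_cases h1 : a = x ∧ b = y
    · rw [h1.1, h1.2]; exact hne
    · by_cases h2 : a = y ∧ b = x
      · rw [h2.1, h2.2]; exact fun h => hne h.symm
      · exact hC a b hab h1 h2
  refine ⟨fun v => C v, hcxy, hC, ?_⟩
  intro α hα
  by_contra hne
  push Not at hne
  have hα' : α ≠ C x := hα
  apply h3
  refine ⟨Coloring.mk (fun v => if v = x then α else C v) ?_⟩
  have key : ∀ b, G.Adj x b → C b ≠ α := by
    intro b hb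
    by_cases hby : b = y
    · rw [hby, ← hcxy]; exact fun h => hα' h.symm
    · exact hne b hb hby
  intro a b hab
  by_cases ha : a = x
  · have hb : b ≠ x := fun h => hab.ne (ha.trans h.symm)
    simp only [ha, hb, if_true, if_false]
    rw [ha] at hab
    exact fun h => key b hab h.symm
  · by_cases hb : b = x
    · simp only [ha, hb, if_true, if_false]
      rw [hb] at hab
      exact key a hab.symm
    · simp only [ha, hb, if_false]
      exact hC a b hab (fun h => ha h.1) (fun h => hb h.2)

theorem fin3 (γ : Fin 3) : ∃ α β : Fin 3, α ≠ γ ∧ β ≠ γ ∧ α ≠ β ∧ ∀ i, i = α ∨ i = β ∨ i = γ := by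
  revert γ
  decide

/-- the main step -/
theorem exists_w (hn : 100 ≤ n) (X Y R : Finset (Fin n)) (hXY : Disjoint X Y)
    (hcov : ∀ z, z ∈ X ∨ z ∈ Y ∨ z ∈ R) (hiX : ∀ a ∈ X, ∀ b ∈ X, ¬ G.Adj a b)
    (hX : 47 * n ≤ 100 * X.card) (hY : 47 * n ≤ 100 * Y.card)
    (hM : 2000 * ((X ×ˢ Y).filter fun p => ¬ G.Adj p.1 p.2).card ≤ n ^ 2)
    (h3 : ¬ G.Colorable 3) (x y : Fin n) (hx : x ∈ X) (hy : y ∈ Y) (hxy : G.Adj x y)
    (hcr : (G.deleteEdges {s(x, y)}).Colorable 3)
    (hxt : 20 * (Y.filter fun z => ¬ G.Adj x z).card ≤ n)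
    (hyt : 20 * (X.filter fun z => ¬ G.Adj z y).card ≤ n) :
    ∃ w, G.Adj x w ∧ (w ∈ R ∨ (w ∈ Y ∧ n < 20 * (X.filter fun z => ¬ G.Adj z w).card)) ∧
      ∀ x' ∈ X, x' ≠ x → G.Adj x' y → 20 * (Y.filter fun z => ¬ G.Adj x' z).card ≤ n →
        ¬ G.Adj x' w := by
  classical
  obtain ⟨c, hcxy, hc, hcα⟩ := col_of_del G hxy h3 hcr
  have hdis : ∀ z, z ∈ X → z ∈ Y → False := fun z h1 h2 => (Finset.disjoint_left.1 hXY) h1 h2
  set A := X.filter fun a => a ≠ x ∧ G.Adj a y with hA
  set B := Y.filter fun b => b ≠ y ∧ G.Adj x b with hB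
  have hAc : ∀ a ∈ A, c a ≠ c x := by
    intro a ha
    rw [hA, mem_filter] at ha
    rw [hcxy]
    exact hc a y ha.2.2 (fun h => ha.2.1 h.1) (fun h => hdis a ha.1 (by rw [h.1]; exact hy))
  have hBc : ∀ b ∈ B, c b ≠ c x := by
    intro b hb
    rw [hB, mem_filter] at hb
    exact fun h => hc x b hb.2.2 (fun h => hb.2.1 h.2)
      (fun h => hb.2.2.ne h.2.symm) h.symm
  have hAB : ∀ i, ∀ a ∈ A.filter (fun a => c a = i), ∀ b ∈ B.filter (fun b => c b = i),
      ¬ G.Adj a b := by
    intro i a ha b hb hab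
    rw [mem_filter, hA, mem_filter] at ha
    rw [mem_filter, hB, mem_filter] at hb
    exact hc a b hab (fun h => ha.1.2.1 h.1) (fun h => hdis a ha.1.1 (by rw [h.1]; exact hy))
      (ha.2.trans hb.2.symm)
  have hAX : ∀ i, A.filter (fun a => c a = i) ⊆ X := fun i =>
    (filter_subset _ _).trans (filter_subset _ _)
  have hBY : ∀ i, B.filter (fun a => c a = i) ⊆ Y := fun i =>
    (filter_subset _ _).trans (filter_subset _ _)
  have hAcard : X.card ≤ A.card + (X.filter fun z => ¬ G.Adj z y).card + 1 := by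
    have : X ⊆ A ∪ (X.filter fun z => ¬ G.Adj z y) ∪ {x} := by
      intro a ha
      rw [mem_union, mem_union, hA, mem_filter, mem_filter, mem_singleton]
      tauto
    calc X.card ≤ _ := card_le_card this
      _ ≤ _ := card_union_le _ _
      _ ≤ _ := by rw [card_singleton]; exact Nat.add_le_add_right (card_union_le _ _) 1
  have hBcard : Y.card ≤ B.card + (Y.filter fun z => ¬ G.Adj x z).card + 1 := by
    have : Y ⊆ B ∪ (Y.filter fun z => ¬ G.Adj x z) ∪ {y} := by
      intro a ha
      rw [mem_union, mem_union, hB, mem_filter, mem_filter, mem_singleton]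
      tauto
    calc Y.card ≤ _ := card_le_card this
      _ ≤ _ := card_union_le _ _
      _ ≤ _ := by rw [card_singleton]; exact Nat.add_le_add_right (card_union_le _ _) 1
  -- the statement for a choice of the two colours
  have main : ∀ α β : Fin 3, α ≠ c x → β ≠ c x → α ≠ β → (∀ i, i = α ∨ i = β ∨ i = c x) →
      (A.filter fun a => c a = β).card ≤ (A.filter fun a => c a = α).card →
      ∃ w, G.Adj x w ∧ (w ∈ R ∨ (w ∈ Y ∧ n < 20 * (X.filter fun z => ¬ G.Adj z w).card)) ∧
      ∀ x' ∈ X, x' ≠ x → G.Adj x' y → 20 * (Y.filter fun z => ¬ G.Adj x' z).card ≤ n →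
        ¬ G.Adj x' w := by
    intro α β hα hβ hαβ hall hle
    have hAs : A.card ≤ (A.filter fun a => c a = α).card + (A.filter fun a => c a = β).card := by
      have : A ⊆ (A.filter fun a => c a = α) ∪ (A.filter fun a => c a = β) := by
        intro a ha
        rcases hall (c a) with h | h | h
        · exact mem_union_left _ (mem_filter.2 ⟨ha, h⟩)
        · exact mem_union_right _ (mem_filter.2 ⟨ha, h⟩)
        · exact absurd h (hAc a ha)
      exact (card_le_card this).trans (card_union_le _ _)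
    have hBs : B.card ≤ (B.filter fun a => c a = α).card + (B.filter fun a => c a = β).card := by
      have : B ⊆ (B.filter fun a => c a = α) ∪ (B.filter fun a => c a = β) := by
        intro a ha
        rcases hall (c a) with h | h | h
        · exact mem_union_left _ (mem_filter.2 ⟨ha, h⟩)
        · exact mem_union_right _ (mem_filter.2 ⟨ha, h⟩)
        · exact absurd h (hBc a ha)
      exact (card_le_card this).trans (card_union_le _ _)
    have hprod := prod_le G X Y _ _ (hAX α) (hBY α) (hAB α)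
    have hAα : 41 * n ≤ 200 * (A.filter fun a => c a = α).card := by omega
    have hBα : 400 * (B.filter fun a => c a = α).card ≤ n := by
      by_contra hcon
      push Not at hcon
      have h1 : 2000 * ((A.filter fun a => c a = α).card * (B.filter fun a => c a = α).card) ≤
        n ^ 2 := by omega
      nlinarith
    have hBβ : 40 * n ≤ 100 * (B.filter fun a => c a = β).card := by omega
    obtain ⟨w, hxw, hwy, hcw⟩ := hcα α hα
    have hwx : w ≠ x := hxw.ne'
    refine ⟨w, hxw, ?_, ?_⟩
    · rcases hcov w with hw | hw | hw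
      · exact absurd hxw (hiX x hx w hw)
      · right
        refine ⟨hw, ?_⟩
        have hsub : (A.filter fun a => c a = α) ⊆ (X.filter fun z => ¬ G.Adj z w) := by
          intro a ha
          have ha' := ha
          rw [mem_filter, hA, mem_filter] at ha
          rw [mem_filter]
          refine ⟨ha.1.1, fun haw => ?_⟩
          exact hc a w haw (fun h => ha.1.2.1 h.1) (fun h => hwx h.2) (ha.2.trans hcw.symm)
        have := card_le_card hsub
        omega
      · exact Or.inl hw
    · intro x' hx' hne hx'y hx't hx'w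
      have hx'y' : x' ≠ y := fun h => hdis x' hx' (by rw [h]; exact hy)
      have h1 : c x' ≠ α := by
        rw [← hcw]
        exact hc x' w hx'w (fun h => hne h.1) (fun h => hx'y' h.1)
      have h2 : c x' ≠ c x := by
        rw [hcxy]
        exact hc x' y hx'y (fun h => hne h.1) (fun h => hx'y' h.1)
      have h4 : c x' = β := by
        rcases hall (c x') with h | h | h
        · exact absurd h h1
        · exact h
        · exact absurd h h2
      have hsub : (B.filter fun a => c a = β) ⊆ (Y.filter fun z => ¬ G.Adj x' z) := by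
        intro b hb
        rw [mem_filter, hB, mem_filter] at hb
        rw [mem_filter]
        refine ⟨hb.1.1, fun hab => ?_⟩
        exact hc x' b hab (fun h => hne h.1) (fun h => hx'y' h.1) (h4.trans hb.2.symm)
      have := card_le_card hsub
      omega
  obtain ⟨α, β, hα, hβ, hαβ, hall⟩ := fin3 (c x)
  rcases le_total (A.filter fun a => c a = β).card (A.filter fun a => c a = α).card with h | h
  · exact main α β hα hβ hαβ hall h
  · exact main β α hβ hα hαβ.symm (fun i => by rcases hall i with h | h | h <;> tauto) h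

/-- a triangle-free 4-critical graph on `n ≥ 100` vertices has at most `0.2499 n ^ 2` edges -/
theorem bound (hn : 100 ≤ n) (hG : G.CliqueFree 3) (h3 : ¬ G.Colorable 3)
    (hcr : ∀ e ∈ G.edgeSet, (G.deleteEdges {e}).Colorable 3) :
    10000 * G.edgeFinset.card ≤ 2499 * n ^ 2 := by
  classical
  by_contra hcon
  push Not at hcon
  obtain ⟨X, Y, R, hXY, hcov, hiX, hiY, hR, hX, hY, hM⟩ := structure_ G hG (by omega) hcon
  have hM' : 2000 * ((Y ×ˢ X).filter fun p => ¬ G.Adj p.1 p.2).card ≤ n ^ 2 := by
    have : ((Y ×ˢ X).filter fun p => ¬ G.Adj p.1 p.2).card =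
        ((X ×ˢ Y).filter fun p => ¬ G.Adj p.1 p.2).card := by
      apply card_equiv (Equiv.prodComm _ _)
      intro p
      rw [mem_filter, mem_product, mem_filter, mem_product]
      constructor
      · intro hp
        exact ⟨⟨hp.1.2, hp.1.1⟩, fun h => hp.2 h.symm⟩
      · intro hp
        exact ⟨⟨hp.1.2, hp.1.1⟩, fun h => hp.2 h.symm⟩
    rw [this]; exact hM
  have hbX := bad_card G (by omega) X Y hM
  have hbY := bad_card G (by omega) Y X hM'
  set XB := X.filter fun x => n < 20 * (Y.filter fun y => ¬ G.Adj x y).card with hXB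
  set YB := Y.filter fun x => n < 20 * (X.filter fun y => ¬ G.Adj x y).card with hYB
  have hYX : ∀ y, (X.filter fun z => ¬ G.Adj z y) = (X.filter fun z => ¬ G.Adj y z) := by
    intro y
    refine filter_congr fun z _ => ?_
    rw [G.adj_comm]
  obtain ⟨y, hy, hyB⟩ : ∃ y ∈ Y, y ∉ YB := by
    by_contra hne
    push Not at hne
    have := card_le_card hne
    omega
  have hyt : 20 * (X.filter fun z => ¬ G.Adj z y).card ≤ n := by
    by_contra h
    push Not at h
    apply hyB
    rw [hYB, mem_filter, ← hYX]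
    exact ⟨hy, h⟩
  set T := X.filter fun x => x ∉ XB ∧ G.Adj x y with hT
  have hTcard : X.card ≤ T.card + XB.card + (X.filter fun z => ¬ G.Adj z y).card := by
    have : X ⊆ T ∪ XB ∪ (X.filter fun z => ¬ G.Adj z y) := by
      intro a ha
      by_cases h1 : a ∈ XB
      · exact mem_union_left _ (mem_union_right _ h1)
      · by_cases h2 : G.Adj a y
        · exact mem_union_left _ (mem_union_left _ (mem_filter.2 ⟨ha, h1, h2⟩))
        · exact mem_union_right _ (mem_filter.2 ⟨ha, h2⟩)
    calc X.card ≤ _ := card_le_card this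
      _ ≤ _ := card_union_le _ _
      _ ≤ _ := Nat.add_le_add_right (card_union_le _ _) _
  have hTt : ∀ x ∈ T, 20 * (Y.filter fun z => ¬ G.Adj x z).card ≤ n := by
    intro x hx
    rw [hT, mem_filter] at hx
    by_contra h
    push Not at h
    apply hx.2.1
    rw [hXB, mem_filter]
    exact ⟨hx.1, h⟩
  have hex : ∀ x : Fin n, ∃ w, x ∈ T → (w ∈ R ∪ YB ∧ G.Adj x w ∧
      ∀ x' ∈ T, x' ≠ x → ¬ G.Adj x' w) := by
    intro x
    by_cases hx : x ∈ T
    · have hx' := hx
      rw [hT, mem_filter] at hx'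
      obtain ⟨w, h1, h2, h4⟩ := exists_w G hn X Y R hXY hcov hiX hX hY hM h3 x y hx'.1 hy hx'.2.2
        (hcr _ hx'.2.2) (hTt x hx) hyt
      refine ⟨w, fun _ => ⟨?_, h1, ?_⟩⟩
      · rw [mem_union]
        rcases h2 with h2 | h2
        · exact Or.inl h2
        · right
          rw [hYB, mem_filter, ← hYX]
          exact h2
      · intro x'' hx'' hne
        have hx3 := hx''
        rw [hT, mem_filter] at hx3
        exact h4 x'' hx3.1 hne hx3.2.2 (hTt x'' hx'')
    · exact ⟨x, fun h => absurd h hx⟩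
  choose f hf using hex
  have hinj : T.card ≤ (R ∪ YB).card := by
    apply card_le_card_of_injOn f
    · intro x hx
      exact (hf x hx).1
    · intro a ha b hb hab
      by_contra hne
      have h1 := (hf a ha).2.2 b hb (fun h => hne h.symm)
      rw [hab] at h1
      exact h1 (hf b hb).2.1
  have := card_union_le R YB
  omega

end Pool.Agent.N426.TF4
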