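import Mathlib

/-!
Triangle-free graphs with almost `n ^ 2 / 4` edges.
-/

set_option autoImplicit false

namespace Pool.Agent.N426.TF4

open SimpleGraph Finset

variable {n : ℕ} (G : SimpleGraph (Fin n)) [DecidableRel G.Adj]

theorem indep_neighbors (hG : G.CliqueFree 3) {u a b : Fin n} (ha : G.Adj u a) (hb : G.Adj u b) :
    ¬ G.Adj a b := by
  intro hab
  exact hG {u, a, b} (is3Clique_triple_iff.2 ⟨ha, hb, hab⟩)

/-- there is an edge whose ends have large degree sum -/
theorem exists_edge (hm : 0 < G.edgeFinset.card) :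
    ∃ u v, G.Adj u v ∧ 4 * G.edgeFinset.card ≤ n * (G.degree u + G.degree v) := by
  classical
  by_contra hne
  push Not at hne
  set m := G.edgeFinset.card with hmd
  have hsum : ∑ v, G.degree v = 2 * m := G.sum_degrees_eq_twice_card_edges
  have h1 : ∑ u, ∑ v ∈ G.neighborFinset u, (n * (G.degree u + G.degree v) + 1) ≤
      ∑ u, ∑ v ∈ G.neighborFinset u, 4 * m := by
    refine sum_le_sum fun u _ => sum_le_sum fun v hv => ?_
    rw [mem_neighborFinset] at hv
    exact hne u v hv
  have h2 : ∑ u, ∑ v ∈ G.neighborFinset u, 4 * m = 4 * m * (2 * m) := by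
    rw [← hsum, mul_sum]
    refine sum_congr rfl fun u _ => ?_
    rw [sum_const, smul_eq_mul, card_neighborFinset_eq_degree]
    ring
  have h3 : ∑ u, ∑ v ∈ G.neighborFinset u, G.degree v = ∑ v, G.degree v ^ 2 := by
    have e1 : ∀ u, ∑ v ∈ G.neighborFinset u, G.degree v =
        ∑ v, if G.Adj u v then G.degree v else 0 := by
      intro u
      rw [← sum_filter]
      refine sum_congr ?_ fun _ _ => rfl
      ext v
      simp
    simp_rw [e1]
    rw [sum_comm]
    refine sum_congr rfl fun v _ => ?_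
    rw [← sum_filter, sum_const, smul_eq_mul]
    have e2 : (univ.filter fun x => G.Adj x v) = G.neighborFinset v := by
      ext x
      simp [G.adj_comm]
    rw [e2, card_neighborFinset_eq_degree]
    ring
  have h4 : ∑ u, ∑ v ∈ G.neighborFinset u, (n * (G.degree u + G.degree v) + 1) =
      n * (2 * ∑ v, G.degree v ^ 2) + 2 * m := by
    have e3 : ∀ u, ∑ v ∈ G.neighborFinset u, (n * (G.degree u + G.degree v) + 1) =
        n * G.degree u ^ 2 + n * (∑ v ∈ G.neighborFinset u, G.degree v) + G.degree u := by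
      intro u
      rw [sum_add_distrib, ← mul_sum, sum_add_distrib, sum_const, sum_const,
        card_neighborFinset_eq_degree]
      simp only [smul_eq_mul]
      ring
    simp_rw [e3]
    rw [sum_add_distrib, sum_add_distrib, ← mul_sum, ← mul_sum, h3, hsum]
    ring
  have h5 : (2 * m) ^ 2 ≤ n * ∑ v, G.degree v ^ 2 := by
    have := sq_sum_le_card_mul_sum_sq (s := (univ : Finset (Fin n)))
      (f := fun v => (G.degree v : ℤ))
    rw [card_univ, Fintype.card_fin] at this
    have h6 : ((∑ v, G.degree v : ℕ) : ℤ) = ((2 * m : ℕ) : ℤ) := by rw [hsum]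
    push_cast at h6
    rw [h6] at this
    exact_mod_cast this
  rw [h2, h4] at h1
  nlinarith

/-- the arithmetic of the structure theorem -/
theorem numeric (n m x y r e k : ℕ) (hn : 0 < n) (hcard : x + y + r = n)
    (hd : 4 * m ≤ n * (x + y)) (hm : 2499 * n ^ 2 < 10000 * m) (hmle : m ≤ e + r * n)
    (hek : e + k = x * y) :
    2500 * r ≤ n ∧ 47 * n ≤ 100 * x ∧ 47 * n ≤ 100 * y ∧ 2000 * k ≤ n ^ 2 := by
  have hr : 2500 * r ≤ n := by
    have h1 : n * (9996 * n) < n * (10000 * (x + y)) := by nlinarith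
    have h2 : 9996 * n < 10000 * (x + y) := Nat.lt_of_mul_lt_mul_left h1
    omega
  have hrn : 2500 * (r * n) ≤ n ^ 2 := by nlinarith
  have he : 2495 * n ^ 2 < 10000 * e := by nlinarith
  have hxyn : x + y ≤ n := by omega
  have hxy : 4 * (x * y) ≤ n ^ 2 := by
    have h1 : (x + y) ^ 2 ≤ n ^ 2 := Nat.pow_le_pow_left hxyn 2
    have h2 : 4 * (x * y) ≤ (x + y) ^ 2 := by
      zify
      nlinarith [sq_nonneg ((x : ℤ) - y)]
    omega
  have hexy : e ≤ x * y := by omega
  have key : ∀ a b : ℕ, a + b ≤ n → 2495 * n ^ 2 < 10000 * (a * b) → 47 * n ≤ 100 * a := by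
    intro a b hab h
    by_contra hc
    push Not at hc
    have h1 : a * b ≤ a * (n - a) := Nat.mul_le_mul_left _ (by omega)
    obtain ⟨c, hc'⟩ : ∃ c, n = a + c := ⟨n - a, by omega⟩
    have h2 : n - a = c := by omega
    rw [h2] at h1
    have h3 : 2495 * n ^ 2 < 10000 * (a * c) := by omega
    subst hc'
    have h4 : 100 * a < 47 * (a + c) := hc
    zify at h3 h4
    nlinarith
  refine ⟨hr, ?_, ?_, ?_⟩
  · exact key x y hxyn (by omega)
  · exact key y x (by omega) (by rw [Nat.mul_comm y x]; omega)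
  · omega

/-- the structure of a triangle-free graph with more than `0.2499 n ^ 2` edges -/
theorem structure_ (hG : G.CliqueFree 3) (hn : 0 < n)
    (hm : 2499 * n ^ 2 < 10000 * G.edgeFinset.card) :
    ∃ X Y R : Finset (Fin n), Disjoint X Y ∧ (∀ z, z ∈ X ∨ z ∈ Y ∨ z ∈ R) ∧
      (∀ a ∈ X, ∀ b ∈ X, ¬ G.Adj a b) ∧ (∀ a ∈ Y, ∀ b ∈ Y, ¬ G.Adj a b) ∧
      2500 * R.card ≤ n ∧ 47 * n ≤ 100 * X.card ∧ 47 * n ≤ 100 * Y.card ∧
      2000 * ((X ×ˢ Y).filter fun p => ¬ G.Adj p.1 p.2).card ≤ n ^ 2 := by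
  classical
  set m := G.edgeFinset.card with hmd
  have hn2 : 0 < n ^ 2 := by positivity
  obtain ⟨u, v, huv, hd⟩ := exists_edge G (by omega)
  set X := G.neighborFinset u with hX
  set Y := G.neighborFinset v with hY
  have hXY : Disjoint X Y := by
    rw [Finset.disjoint_left]
    intro a ha hb
    rw [hX, mem_neighborFinset] at ha
    rw [hY, mem_neighborFinset] at hb
    exact indep_neighbors G hG ha huv hb.symm
  set R := (X ∪ Y)ᶜ with hR
  have hcard : X.card + Y.card + R.card = n := by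
    rw [← card_union_of_disjoint hXY, hR, card_add_card_compl, Fintype.card_fin]
  have hdX : G.degree u = X.card := (card_neighborFinset_eq_degree _ _).symm
  have hdY : G.degree v = Y.card := (card_neighborFinset_eq_degree _ _).symm
  rw [hdX, hdY] at hd
  set E := (X ×ˢ Y).filter fun p => G.Adj p.1 p.2 with hE
  set M := (X ×ˢ Y).filter fun p => ¬ G.Adj p.1 p.2 with hM
  have hEM : E.card + M.card = X.card * Y.card := by
    rw [hE, hM, card_filter_add_card_filter_not, card_product]
  have hiX : ∀ a ∈ X, ∀ b ∈ X, ¬ G.Adj a b := by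
    intro a ha b hb
    rw [hX, mem_neighborFinset] at ha hb
    exact indep_neighbors G hG ha hb
  have hiY : ∀ a ∈ Y, ∀ b ∈ Y, ¬ G.Adj a b := by
    intro a ha b hb
    rw [hY, mem_neighborFinset] at ha hb
    exact indep_neighbors G hG ha hb
  have hcov : ∀ z, z ∈ X ∨ z ∈ Y ∨ z ∈ R := by
    intro z
    rw [hR, mem_compl, mem_union]
    tauto
  have hmle : m ≤ E.card + R.card * n := by
    have hsub : G.edgeFinset ⊆ E.image (fun p => s(p.1, p.2)) ∪
        (R ×ˢ (univ : Finset (Fin n))).image (fun p => s(p.1, p.2)) := by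
      intro e he
      induction e with | _ a b
      rw [mem_edgeFinset, mem_edgeSet] at he
      rw [mem_union, mem_image, mem_image]
      have hin : ∀ a b, G.Adj a b → a ∈ X → b ∈ Y → ∃ p ∈ E, s(p.1, p.2) = s(a, b) := by
        intro a b hab ha hb
        refine ⟨(a, b), ?_, rfl⟩
        rw [hE, mem_filter, mem_product]
        exact ⟨⟨ha, hb⟩, hab⟩
      rcases hcov a with ha | ha | ha
      · rcases hcov b with hb | hb | hb
        · exact absurd he (hiX a ha b hb)
        · exact Or.inl (hin a b he ha hb)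
        · exact Or.inr ⟨(b, a), mem_product.2 ⟨hb, mem_univ _⟩, Sym2.eq_swap⟩
      · rcases hcov b with hb | hb | hb
        · obtain ⟨p, hp, hp2⟩ := hin b a he.symm hb ha
          exact Or.inl ⟨p, hp, hp2.trans Sym2.eq_swap⟩
        · exact absurd he (hiY a ha b hb)
        · exact Or.inr ⟨(b, a), mem_product.2 ⟨hb, mem_univ _⟩, Sym2.eq_swap⟩
      · exact Or.inr ⟨(a, b), mem_product.2 ⟨ha, mem_univ _⟩, rfl⟩
    calc m ≤ _ := card_le_card hsub
      _ ≤ _ := card_union_le _ _
      _ ≤ E.card + (R ×ˢ (univ : Finset (Fin n))).card := add_le_add card_image_le card_image_le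
      _ = E.card + R.card * n := by rw [card_product, card_univ, Fintype.card_fin]
  obtain ⟨h1, h2, h3, h4⟩ := numeric n m X.card Y.card R.card E.card M.card hn hcard hd hm hmle hEM
  exact ⟨X, Y, R, hXY, hcov, hiX, hiY, h1, h2, h3, h4⟩

end Pool.Agent.N426.TF4
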